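import Pool.Agent.H30.TowA

set_option autoImplicit false

namespace Pool.Agent.Results.MP_dfc365_gt.Tower

open Pool.Agent.H30.Tow

/-- `C_p(X)`: continuous real functions with the topology of pointwise convergence. -/
abbrev Cp (X : Type) [TopologicalSpace X] : Type := {f : X → ℝ // Continuous f}

/-- Under CH, or just when the bounding number is `ℵ₁`, there is an example. -/
theorem result (h : (Cardinal.continuum : Cardinal.{0}) = Cardinal.aleph 1 ∨
      ∃ F : Set (ℕ → ℕ), Cardinal.mk F ≤ Cardinal.aleph 1 ∧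
        ∀ g : ℕ → ℕ, ∃ f ∈ F, ∃ᶠ n in Filter.atTop, g n < f n) :
    ∃ (X : Type) (_ : TopologicalSpace X), T35Space X ∧
      TopologicalSpace.SeparableSpace (Cp X) ∧ FrechetUrysohnSpace (Cp X) ∧
      ¬ ∀ S : Set (Cp X), TopologicalSpace.SeparableSpace S := by
  obtain ⟨x, hx⟩ := exists_tw (h.elim smallB_of_CH id)
  exact ⟨Sp x, inferInstance, inferInstance, sep x, hx.fu, hx.not_hs⟩

end Pool.Agent.Results.MP_dfc365_gt.Tower
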